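import Pool.Agent.Y121.FD.Hodge

/-!
Let `X` be a smooth projective variety over `ℂ` (in a class `𝒱` of varieties closed under products),
`H` the Betti cohomology with rational coefficients, `D` its Hodge decomposition.

Let `𝒞 ⊂ D^perf(X)` be an admissible subcategory, or any direct summand of the noncommutative motive
of `X`: it is given by an element `e` of `K_0(X × X)_ℚ = CH^*(X × X)_ℚ` of mixed degrees, idempotent
(modulo homological equivalence), with `K_0(𝒞)_ℚ = e CH^*(X)_ℚ`, `K_0^top(𝒞)_ℚ = e H^{ev}(X, ℚ)`.

There is a homogeneous `p ∈ CH^{dim X}(X × X)_ℚ`, idempotent modulo homological equivalence, such that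
`(X, e)` and the Chow motive `(X, p)` are isomorphic modulo homological equivalence, and the
noncommutative Hodge conjecture for `𝒞` is equivalent to the Hodge conjecture for `(X, p)`.
-/

set_option autoImplicit false

universe u v

open CategoryTheory Pool.Agent.H914 Pool.Agent.H914.VarClass Pool.Agent.W492.BB
  Pool.Agent.TH133 Pool.Agent.Y121.NK Pool.Agent.Y121.FD in
theorem Pool.Agent.Results.MP_43e44c_ag.AdmissibleAreChowMotives.result
    {k : Type u} [Field k] {𝒱 : VarClass k} {C : TheoryData.{u, v, 0} 𝒱 ℚ} [IsChowProj C]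
    {H : WeilTheoryData.{u, v, 0} C ℚ} [IsWeilProj H] {D : HodgeTypes H} (hD : IsHodgeTypes D)
    {X : 𝒱.Obj} [FiniteDimensional ℚ (H.A (X.prod X))]
    {e : C.A (X.prod X)} (he : HomEq H (C.comp e e) e) :
    ∃ p : C.A (X.prod X), C.Deg X.dim p ∧ HomEq H (C.comp p p) p ∧ HomIso H e p ∧
      (NCHodge D e ↔ MotHodge D p) :=
  hodge_main hD he
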