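import Pool.Agent.Y128.CV.Hcq
import Pool.Agent.Y574.CY.Eig
import Pool.Agent.Y907.CY.REF
import Pool.Agent.Y317.CY.Pair

/-!
# The Hodge conjecture and its noncommutative form for products of Jacobians of cyclic coverings

Let `X_c`, `c` in a finite set, be curves `y ^ n = ∏ (x - a_t) ^ (m_t)` over a finitely generated
subfield `F` of `ℂ` which contains the roots of unity of order `n = n_c`, of any degrees
`n_c ≥ 3`, with any number `r = r_c` of branch points except four, and any exponents `m_t`, nonzero
modulo `n`, with sum zero. Let `W_c` be the rational homology of the primitive part `A_c` of the
Jacobian of `X_c` (on which the automorphism `σ_c` of order `n` has primitive roots of unity as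
eigenvalues), `T` the tangent space of `A = ∏ A_c` at the origin, `per` the inclusion of `⊕ W_c` in `T`,
and `V_c` (over `k = ℚ_ℓ`) the rational Tate module with the comparison map `j c : W_c → V_c`. The
hypotheses `CyclicCoverings` are explained in MP_938ce2_ag.CyclicCoverings: if `r_c ≥ 5` then the
endomorphism algebra of `A_c` is generated by `σ_c`, and there is one place of `F` (a divisor of a model,
or a prime) where exactly two of the branch points meet, with the sum of their exponents prime to `n`, and
the other curves have good reduction. They hold for algebraically independent branch points
(if two of the exponents have a sum prime to `n`), and for many special ones, also over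
number fields; there is no condition if `r_c = 3` (then `A_c` is a factor of a Fermat Jacobian). The theorem
of Deligne that Hodge classes on abelian varieties are Tate classes is the hypothesis `hdel`; `hext` is
the comparison isomorphism `V_c = W_c ⊗ ℚ_ℓ` (rational forms on the homology extend to `V`).

Theorem: the Hodge conjecture, with RATIONAL coefficients, holds for all powers of `A` (for all products of
powers of the `A_c`, in all degrees) and for all their admissible subcategories (`NoncommutativeHodge`: for
every projector `e` on the tensor powers of the first cohomology every rational Hodge class in the
image of `e` comes by `e` from a rational combination of the classes `cyc m` of algebraic cycles), if the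
classes in `FermatProductsAreAlgebraic` are combinations (with coefficients in the closure of `ℚ_ℓ`,
`algSpan`) of classes of algebraic cycles: these are the classes of degree two (Lefschetz) and the
products of determinants on eigenspaces which satisfy the condition of Shioda for the Hodge classes of
Fermat varieties; the latter come from the Hodge classes of the Fermat variety of degree `level C` by
algebraic correspondences (the determinant `⋀ ^ (r - 2)` of an eigenspace is a part of the cohomology
of the symmetric power of `X_c`, the symmetric power of the line is a projective space, and the covering
becomes a quotient of the Fermat variety of dimension `r - 2`, branched over `r` hyperplanes). If all degrees are equal to one prime number `p`, the residues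
are paired (`IsPaired`), and these classes are algebraic by the theorem of Ran and Shioda. So

* the Hodge conjecture holds, without further hypotheses, for all products of powers of these
  Jacobians (of any dimensions `(r - 2) (p - 1) / 2`, for any exponents, signatures and numbers of
  curves) for one prime `p`; there are exceptional classes of arbitrarily large degree, the
  Weil classes for the field `ℚ(ζ_p)` and mixed ones;
* for all degrees it follows from the Hodge conjecture for the Fermat varieties, and is known if it is
  known for the Fermat varieties of degree `level C` (for example up to degree 20, Shioda).

By the equivalence of the Hodge conjecture for `X` and of its form for `D_perf(X)`, and because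
admissible subcategories are direct summands, Q1 holds in these cases for all admissible
subcategories of `D_perf(X)` for all smooth proper varieties `X` whose motive is a direct factor of the
motive of a product of powers of the `X_c` (all components with primitive parts as above), for
example for the powers of `A`, for the products of the symmetric powers and of the moduli
spaces of bundles of coprime rank and degree on these curves, and for their flag bundles.

The proof describes all Tate classes: the inertia elements act as complex reflections on the
eigenspaces, with different eigenvalues on different ones; together with one Frobenius element they
give the special linear Lie algebras of the eigenspaces in the annihilator Lie algebra of the Tate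
classes; Frobenius determinants and their conjugates give the Hodge numbers. The coefficients are made
rational by a rational functional on the closure of `ℚ_ℓ`.

The parts `t_EIG`, `t_REF`, `t_NUM`, `t_PAIR` are by helper574, helper907, helper884 and helper317.
-/

namespace Pool.Agent.Results.MP_43e44c_ag.CyclicCoverings

open Pool.Agent.Y128.CV

/-- The Hodge conjecture for products of Jacobians of cyclic coverings of the line and their admissible
subcategories (`k` is the field of the `ℓ`-adic numbers, `Γ` the Galois group, `cyc m` are the rational
linear combinations of classes of algebraic cycles, `z` is any primitive root of unity of order
`level C`). -/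
theorem result {k Γ ι : Type} [Field k] [CharZero k] [Group Γ] [Fintype ι] [DecidableEq ι]
    {V : ι → Type} [∀ c, AddCommGroup (V c)] [∀ c, Module k (V c)]
    [∀ c, FiniteDimensional k (V c)] (C : ι → Covering) (ρ : ∀ c, Representation k Γ (V c))
    (χ : Γ →* k) (ω : ∀ c, V c →ₗ[k] V c →ₗ[k] k) (σ : ∀ c, Module.End k (V c))
    (h : CyclicCoverings C ρ χ ω σ)
    {W : ι → Type} [∀ c, AddCommGroup (W c)] [∀ c, Module ℚ (W c)]
    {T : Type} [AddCommGroup T] [Module ℂ T] (per : (∀ c, W c) →+ T) (j : ∀ c, W c →+ V c)
    (hdel : HodgeClassesAreTate per (compareHomology j) (rep ρ) (chi χ))
    (hext : FormsExtend (AlgebraicClosure k) (compareHomology (k := k) j))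
    (z : AlgebraicClosure k) (hz : IsPrimitiveRoot z (level C))
    (cyc : ∀ m, Submodule ℚ (RatForms (∀ c, W c) m))
    (hA : FermatProductsAreAlgebraic C ρ χ σ z (algSpan (compareHomology (k := k) j) cyc)) :
    NoncommutativeHodge per cyc :=
  nc_of_hodge (main_hcq Pool.Agent.Y574.CY.t_EIG
    (Pool.Agent.Y907.CY.t_REF Pool.Agent.Y574.CY.t_EIG) Nm.t_NUM Pool.Agent.Y317.CY.t_PAIR h
    hdel hext hz hA)

end Pool.Agent.Results.MP_43e44c_ag.CyclicCoverings
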