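import Pool.Agent.Y2.Cv.Fin2

/-!
# Hodge classes on the Fermat varieties of a given dimension, for all degrees

Let `n` be even and `N = n + 2`. The primitive middle cohomology of the Fermat variety of degree `m`
and dimension `n` splits into lines indexed by the multisets of `N` nonzero residues modulo `m` with
sum zero; the Hodge classes are spanned by the lines of the Hodge characters (Shioda).

For every `N` there is an explicit universal degree `D`, a power of the product of the primes up to
`12 * N`, with the following property. Let `s` be a Hodge character with `N` entries of any degree
`m`, and let `d` be the greatest common divisor of `m` and `D`. Then `s` belongs to the smallest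
family which is closed under union and under removing a pair `{a, -a}` and contains the Hodge
characters of surfaces, the pairs `{a, -a}`, the standard characters and
* nothing more, if `d` is in `GoodDegree`;
* the curve products, if `d` is even and in `GoodDegree2`: the Hodge characters which are the union of
  two characters of Fermat curves or of Fermat threefolds for which the Newton simplex of the quotient
  of the Fermat threefold by the kernel of the character has empty Fine interior (so that this
  quotient is uniruled and its `H^3` comes from curves);
* otherwise the Hodge characters with `N` entries which come from degree `d`.

So, by the inductive structure of Fermat varieties (Shioda, Katsura) and the cycles of Aoki and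
Shioda, the Hodge conjecture for the Fermat variety of dimension `n` and degree `m` is equivalent to
that for degree `d`: one variety, of degree `D`, decides all degrees. And it holds if `d` is in
`GoodDegree` or in `GoodDegree2`. For instance it holds in all dimensions for the degrees whose prime
factors are among `2, 5, 7`, or `2, 3, 11`, or `2, 3, 13`.
-/

namespace Pool.Agent.Results.MP_43e44c_ag.FermatUniversalDegree

open Pool.Agent.H916R2 Pool.Agent.Y2.Cv

/-- The universal degree for characters with `N` entries: a power of the product of the primes up
to `12 * N`. -/
def universalDegree (N : ℕ) : ℕ := primorial (12 * N) ^ ((N + 2) * (Nat.clog 2 (12 * N) + 1))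

theorem result (m : ℕ) (hm : 0 < m) (s : Multiset (ZMod m)) (hs : IsHodge m s) (hne : s ≠ 0)
    (d : ℕ) (hd : d = Nat.gcd m (universalDegree (Multiset.card s))) :
    Generated m (fun t => SurfaceCharacter m t ∨ (Even d ∧ GoodDegree2 d ∧ CurveProduct m t) ∨
      (¬ GoodDegree d ∧ ¬ (Even d ∧ GoodDegree2 d) ∧ FromLevel m d t ∧
        Multiset.card t = Multiset.card s)) s := by
  subst hd
  exact main_all2 hm s hs hne

end Pool.Agent.Results.MP_43e44c_ag.FermatUniversalDegree
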