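import Pool.Agent.Y121.ZI.ILaw
import Pool.Agent.Y121.ZI.HodgeDefs

/-!
# MP_43e44c_ag: the index law for Hodge classes on admissible subcategories

For every admissible subcategory `A` of `D_perf(X)`, `X` smooth and proper over `ℂ`, with
`K^top(A) ⊗ ℚ ≠ 0`: the dimension of the space of rational Hodge classes of
`A^{⊗ n} ⊗ (A^{⊗ n})^op` divided by the rank of its `K_0` modulo numerical equivalence converges to
some `N` in `{1, 2, 3, …, ∞}`. Moreover `N = 1` if and only if the noncommutative Hodge conjecture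
holds for all `A^{⊗ n} ⊗ (A^{⊗ n})^op` and homological and numerical equivalence agree on all
`A^{⊗ m} ⊗ (A^{⊗ n})^op`; and if `N` is finite, then homological and numerical equivalence agree on
all `A^{⊗ m} ⊗ (A^{⊗ n})^op` and all Hodge classes are generated by elements of `K_0` and at most
`N - 1` Hodge classes.
-/

universe v w

namespace Pool.Agent.Results.MP_43e44c_ag.IndexLaw

open Pool.Agent.Y121.ZI

open scoped TensorProduct

lemma mem_rational {V : Type w} [AddCommGroup V] [Module ℚ V] (p : V →ₗ[ℚ] V)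
    (F : Submodule ℂ (ℂ ⊗[ℚ] V)) (x : V) : x ∈ rational p F ↔ p x = x ∧ (1 : ℂ) ⊗ₜ[ℚ] x ∈ F := by
  rw [rational, Submodule.mem_inf, LinearMap.mem_ker, LinearMap.sub_apply, LinearMap.id_apply,
    sub_eq_zero, Submodule.mem_comap, TensorProduct.mk_apply, Submodule.restrictScalars_mem]

lemma hdg_map (T : HodgeTheory.{v, w}) {X Y : T.Obj} {f : T.H X →ₗ[ℚ] T.H Y} (hf : f ∈ T.S X Y)
    {x : T.H X} (hx : x ∈ T.hdg X) : f x ∈ T.hdg Y := by
  have hf' : f ∈ Submodule.span ℚ (T.cor X Y : Set (T.H X →ₗ[ℚ] T.H Y)) := hf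
  clear hf
  induction hf' using Submodule.span_induction with
  | mem f hf =>
    have hx' := (mem_rational _ _ _).1 hx
    refine (mem_rational _ _ _).2 ⟨?_, ?_⟩
    · rw [← T.cor_par X Y f hf, hx'.1]
    · have h1 := T.hh_cor X Y f hf _ hx'.2
      rwa [LinearMap.baseChange_tmul] at h1
  | zero => exact Submodule.zero_mem _
  | add f g hf hg hf' hg' => exact Submodule.add_mem _ hf' hg'
  | smul c f hf hf' => exact Submodule.smul_mem _ c hf'

/-- The Hodge classes form a stable system of classes. -/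
noncomputable def cls (T : HodgeTheory.{v, w}) : NCTheory.Cls T.toNCTheory where
  C := T.hdg
  map := fun _ hf _ hx => hdg_map T hf hx
  one := T.hh_one

/-- The index law for Hodge classes. -/
theorem result (T : HodgeTheory.{v, w}) (A : T.Obj) [Nontrivial (T.H A)] :
    ∃ N : ℕ∞, 1 ≤ N ∧ T.HasIndex T.hdg A N ∧
      (N = 1 ↔ (∀ n, T.HodgeConj (T.bi A n n)) ∧ ∀ m n, T.StdD (T.bi A m n)) ∧
      (N ≠ ⊤ → (∀ m n, T.StdD (T.bi A m n)) ∧ T.Generated T.hdg A N) :=
  NCTheory.index_law (cls T) A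

end Pool.Agent.Results.MP_43e44c_ag.IndexLaw
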